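import Pool.Agent.H83.AR.Targets
import Pool.Agent.H27.LS.RED2

/-!
# One dimensional Fourier inversion for the transplantation kernel with angular average
-/

set_option autoImplicit false

namespace Pool.Agent.H4.BR

open MeasureTheory Set FourierTransform
open Pool.Agent.H83.LS Pool.Agent.H93.AR Pool.Agent.H83.AR
open Pool.Agent.H54.LS (Sp sg)
open scoped ENNReal NNReal

lemma norm_Sp {n : ℕ} (w : Sp n) : ‖(w : EE n)‖ = 1 := by
  have := w.2
  rwa [mem_sphere_zero_iff_norm] at this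

/-- what is needed of the zonal kernel -/
structure ZK (n : ℕ) (L M : ℝ) : Prop where
  meas : Measurable fun q : EE n × EE n => zk n L q.1 q.2
  nonneg : ∀ u v : EE n, 0 ≤ zk n L u v
  le : ∀ u v : EE n, ‖u‖ = 1 → ‖v‖ = 1 → zk n L u v ≤ M

lemma zk_of (hZB : T_ZB) (n : ℕ) (hn : 1 ≤ n) (L : ℝ) (hL : 1 ≤ L) : ∃ M : ℝ, 0 ≤ M ∧ ZK n L M := by
  obtain ⟨C, hC⟩ := hZB n hn
  obtain ⟨h1, -, h3, h4, -⟩ := hC L hL
  refine ⟨|C * L ^ (n - 1)|, abs_nonneg _, ⟨h1, h3, fun u v hu hv => ?_⟩⟩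
  exact (h4 u v hu hv).trans (le_abs_self _)

lemma coe_meas (n : ℕ) : Measurable (fun w : Sp n => (w : EE n)) := measurable_subtype_coe

lemma pair_meas (n : ℕ) :
    Measurable fun p : (ℝ × EE n) × Sp n => (((p.2 : EE n), p.1.2) : EE n × EE n) :=
  ((coe_meas n).comp measurable_snd).prodMk (measurable_snd.comp measurable_fst)

lemma comp_meas1 {n : ℕ} {F : EE n × EE n → ℝ} (hZ : Measurable F) :
    Measurable fun p : (ℝ × EE n) × Sp n => F ((p.2 : EE n), p.1.2) := hZ.comp (pair_meas n)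

lemma comp_meas2 {n : ℕ} {F : EE n × EE n → ℝ} (hZ : Measurable F) (v : EE n) :
    Measurable fun p : Sp n => F ((p : EE n), v) :=
  hZ.comp ((coe_meas n).prodMk measurable_const)

lemma ZK.meas1 {n : ℕ} {L M : ℝ} (hZ : ZK n L M) :
    Measurable fun p : (ℝ × EE n) × Sp n => zk n L (p.2 : EE n) p.1.2 :=
  comp_meas1 hZ.meas

lemma ZK.meas2 {n : ℕ} {L M : ℝ} (hZ : ZK n L M) (v : EE n) :
    Measurable fun p : Sp n => zk n L (p : EE n) v :=
  comp_meas2 hZ.meas v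

lemma inner_meas {n : ℕ} (u : EE n) : Measurable fun w : Sp n => inner ℝ u (w : EE n) :=
  (continuous_const.inner continuous_subtype_val).measurable

lemma ZL_meas {n : ℕ} {L M : ℝ} (hZ : ZK n L M) (u : EE n) :
    Measurable fun q : ℝ × EE n => ZL n L q.1 u q.2 := by
  have h : Measurable fun p : (ℝ × EE n) × Sp n => e (-(p.1.1 * inner ℝ u (p.2 : EE n))) *
      ((zk n L (p.2 : EE n) p.1.2 : ℝ) : ℂ) := by
    apply Measurable.mul
    · apply measurable_e.comp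
      exact ((measurable_fst.comp measurable_fst).mul ((inner_meas u).comp measurable_snd)).neg
    · exact Complex.measurable_ofReal.comp hZ.meas1
  exact (StronglyMeasurable.integral_prod_right' (ν := sg n) h.stronglyMeasurable).measurable

lemma ZL_cont {n : ℕ} {L M : ℝ} (hZ : ZK n L M) (u w : EE n) (hw : ‖w‖ = 1) :
    Continuous fun τ : ℝ => ZL n L τ u w := by
  unfold ZL
  refine continuous_of_dominated (bound := fun _ => M) ?_ ?_ ?_ ?_
  · intro τ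
    apply Measurable.aestronglyMeasurable
    apply Measurable.mul
    · exact measurable_e.comp ((inner_meas u).const_mul τ).neg
    · exact Complex.measurable_ofReal.comp (hZ.meas2 w)
  · intro τ
    refine Filter.Eventually.of_forall fun w' => ?_
    rw [norm_mul, norm_e, one_mul, Complex.norm_real, Real.norm_eq_abs,
      abs_of_nonneg (hZ.nonneg _ _)]
    exact hZ.le _ _ (norm_Sp w') hw
  · exact integrable_const _
  · refine Filter.Eventually.of_forall fun w' => ?_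
    have h1 : Continuous fun τ : ℝ => -(τ * inner ℝ u (w' : EE n)) :=
      (continuous_id.mul continuous_const).neg
    exact (continuous_e.comp h1).mul continuous_const

lemma ZL_bound {n : ℕ} {L M : ℝ} (hZ : ZK n L M) (τ : ℝ) (u w : EE n)
    (hw : ‖w‖ = 1) : ‖ZL n L τ u w‖ ≤ M * (sg n).real univ := by
  unfold ZL
  refine norm_integral_le_of_norm_le_const (C := M) ?_ |>.trans (le_of_eq ?_)
  · refine Filter.Eventually.of_forall fun w' => ?_
    rw [norm_mul, norm_e, one_mul, Complex.norm_real, Real.norm_eq_abs,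
      abs_of_nonneg (hZ.nonneg _ _)]
    exact hZ.le _ _ (norm_Sp w') hw
  · rfl

/-- the frequency side -/
noncomputable def hz (n : ℕ) (L : ℝ) (χ : ℝ → ℝ) (Lam : ℝ) (u w : EE n) (ρ s : ℝ) : ℂ :=
  ((χ (s / Lam) * |ρ * s| ^ (((n : ℝ) - 1) / 2) : ℝ) : ℂ) * ZL n L (ρ * s) u w

lemma hz_pos (n : ℕ) (L : ℝ) (χ : ℝ → ℝ) (Lam : ℝ) (u w : EE n) (ρ s : ℝ) (hρ : 0 ≤ ρ)
    (hs : 0 ≤ s) : hz n L χ Lam u w ρ s =
      ((χ (s / Lam) * (ρ * s) ^ (((n : ℝ) - 1) / 2) : ℝ) : ℂ) * ZL n L (ρ * s) u w := by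
  unfold hz
  rw [abs_of_nonneg (mul_nonneg hρ hs)]

lemma hz_neg (n : ℕ) (L : ℝ) (χ : ℝ → ℝ) (hχ : ∀ s, χ s ≠ 0 → 1 / 8 ≤ s ∧ s ≤ 8) (Lam : ℝ)
    (hL : 0 < Lam) (u w : EE n) (ρ s : ℝ) (hs : s ≤ 0) : hz n L χ Lam u w ρ s = 0 := by
  unfold hz
  have : χ (s / Lam) = 0 := by
    by_contra h
    have h1 := (hχ _ h).1
    have h2 : s / Lam ≤ 0 := div_nonpos_of_nonpos_of_nonneg hs hL.le
    linarith
  rw [this, zero_mul, Complex.ofReal_zero, zero_mul]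

lemma hz_cont {n : ℕ} (hn : 2 ≤ n) {L M : ℝ} (hZ : ZK n L M) (χ : ℝ → ℝ) (hc : Continuous χ)
    (Lam : ℝ) (u w : EE n) (hw : ‖w‖ = 1) (ρ : ℝ) : Continuous (hz n L χ Lam u w ρ) := by
  unfold hz
  have hn' : (2 : ℝ) ≤ n := by exact_mod_cast hn
  apply Continuous.mul
  · apply Complex.continuous_ofReal.comp
    apply Continuous.mul
    · exact hc.comp (continuous_id.div_const _)
    · apply Continuous.rpow_const
      · exact (continuous_const.mul continuous_id).abs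
      · intro x; right; linarith
  · exact (ZL_cont hZ u w hw).comp (continuous_const.mul continuous_id)

lemma hz_meas {n : ℕ} {L M : ℝ} (hZ : ZK n L M) (χ : ℝ → ℝ) (hc : Continuous χ) (Lam : ℝ)
    (u : EE n) : Measurable fun q : (EE n × ℝ) × ℝ => hz n L χ Lam u q.1.1 q.1.2 q.2 := by
  unfold hz
  apply Measurable.mul
  · apply Complex.measurable_ofReal.comp
    apply Measurable.mul
    · exact hc.measurable.comp (measurable_snd.div_const _)
    · apply Measurable.pow_const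
      exact ((measurable_snd.comp measurable_fst).mul measurable_snd).abs
  · exact (ZL_meas hZ u).comp (((measurable_snd.comp measurable_fst).mul measurable_snd).prodMk
      (measurable_fst.comp measurable_fst))

lemma hz_supp (n : ℕ) (L : ℝ) (χ : ℝ → ℝ) (hχ : ∀ s, χ s ≠ 0 → 1 / 8 ≤ s ∧ s ≤ 8) (Lam : ℝ)
    (hL : 0 < Lam) (u w : EE n) (ρ s : ℝ) (hs : hz n L χ Lam u w ρ s ≠ 0) :
    s ∈ Icc 0 (8 * Lam) := by
  have h0 : χ (s / Lam) ≠ 0 := by
    intro h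
    apply hs
    unfold hz
    rw [h, zero_mul, Complex.ofReal_zero, zero_mul]
  have h1 := hχ _ h0
  constructor
  · by_contra h
    push Not at h
    have : s / Lam < 0 := div_neg_of_neg_of_pos h hL
    linarith
  · have := (div_le_iff₀ hL).mp h1.2
    linarith

/-- the kernel as an integral over the whole line -/
noncomputable def kzc (n : ℕ) (L : ℝ) (χ : ℝ → ℝ) (Lam : ℝ) (u w : EE n) (x ρ : ℝ) : ℂ :=
  ∫ s : ℝ, e (x * s) * hz n L χ Lam u w ρ s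

lemma kzc_eq (n : ℕ) (L : ℝ) (χ : ℝ → ℝ) (hχ : ∀ s, χ s ≠ 0 → 1 / 8 ≤ s ∧ s ≤ 8) (Lam : ℝ)
    (hL : 0 < Lam) (u w : EE n) (x ρ : ℝ) (hρ : 0 ≤ ρ) :
    ((Lam : ℝ) : ℂ) * kz n L (fun s => ((χ s : ℝ) : ℂ)) (Lam * x) (Lam * ρ) u w =
      kzc n L χ Lam u w x ρ := by
  have h := Measure.integral_comp_mul_left (fun s : ℝ => e (x * s) * hz n L χ Lam u w ρ s) Lam
  have h2 : kz n L (fun s => ((χ s : ℝ) : ℂ)) (Lam * x) (Lam * ρ) u w =
      ∫ s : ℝ, e (x * (Lam * s)) * hz n L χ Lam u w ρ (Lam * s) := by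
    unfold kz
    rw [← integral_indicator measurableSet_Ioi]
    congr 1
    ext s
    by_cases hs : s ∈ Ioi (0 : ℝ)
    · have hs' : 0 < s := hs
      rw [indicator_of_mem hs, hz_pos n L χ Lam u w ρ _ hρ (by positivity)]
      have h3 : Lam * s / Lam = s := by field_simp
      have h4 : ∫ w' : Sp n, e (-(Lam * ρ * s * inner ℝ u (w' : EE n))) *
          ((zk n L (w' : EE n) w : ℝ) : ℂ) ∂(sg n) = ZL n L (Lam * ρ * s) u w := rfl
      rw [h3, h4, show x * (Lam * s) = Lam * x * s by ring,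
        show ρ * (Lam * s) = Lam * ρ * s by ring]
      push_cast
      ring
    · rw [indicator_of_notMem hs, hz_neg n L χ hχ Lam hL]
      · simp
      · simp only [mem_Ioi, not_lt] at hs
        exact mul_nonpos_of_nonneg_of_nonpos hL.le hs
  rw [h2, h, abs_of_pos (inv_pos.mpr hL)]
  unfold kzc
  rw [Complex.real_smul, ← mul_assoc]
  push_cast
  rw [mul_inv_cancel₀ (by exact_mod_cast hL.ne'), one_mul]

lemma kzc_meas {n : ℕ} {L M : ℝ} (hZ : ZK n L M) (χ : ℝ → ℝ) (hc : Continuous χ) (Lam : ℝ)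
    (u : EE n) : Measurable fun q : (EE n × ℝ) × ℝ => kzc n L χ Lam u q.1.1 q.2 q.1.2 := by
  have h : Measurable (fun q : ((EE n × ℝ) × ℝ) × ℝ => e (q.1.2 * q.2) *
      hz n L χ Lam u q.1.1.1 q.1.1.2 q.2) := by
    apply Measurable.mul
    · exact measurable_e.comp (by fun_prop)
    · exact (hz_meas hZ χ hc Lam u).comp
        ((measurable_fst.comp measurable_fst).prodMk measurable_snd)
  exact (StronglyMeasurable.integral_prod_right' (ν := volume) h.stronglyMeasurable).measurable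

/-- decay of the kernel in the good region -/
def Dec (n : ℕ) (L : ℝ) (χ : ℝ → ℝ) (Lam C : ℝ) : Prop := ∀ (x ρ : ℝ) (u w : Sp n),
  L ^ 2 ≤ Lam * ρ → 0 ≤ ρ → ‖kzc n L χ Lam (u : EE n) (w : EE n) x ρ‖ ≤
    C * (((1 + |Lam * x - Lam * ρ|) ^ 2)⁻¹ + ((1 + |Lam * x + Lam * ρ|) ^ 2)⁻¹)

lemma bz_le (n : ℕ) (L : ℝ) (hL : 0 ≤ L) (v w : EE n) : bz n L v w ≤ L ^ (n - 1) * 2 := by
  unfold bz
  refine mul_le_mul_of_nonneg_left ?_ (pow_nonneg hL _)
  have h1 : ∀ a : ℝ, 0 ≤ a → ((1 + L * a) ^ (n + 1))⁻¹ ≤ 1 := by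
    intro a ha
    apply inv_le_one_of_one_le₀
    apply one_le_pow₀
    have := mul_nonneg hL ha
    linarith
  have h2 := h1 ‖v - w‖ (norm_nonneg _)
  have h3 := h1 ‖v + w‖ (norm_nonneg _)
  linarith

lemma bz_nonneg (n : ℕ) (L : ℝ) (hL : 0 ≤ L) (v w : EE n) : 0 ≤ bz n L v w := by
  unfold bz
  positivity

lemma dec_aux {n : ℕ} {L Lam C x ρ Y : ℝ} {v w : EE n} (hL : 0 ≤ L) (hLam : 0 < Lam) (hC : 0 ≤ C)
    (h : Y ≤ C * Lam * (((1 + |Lam * x - Lam * ρ|) ^ 2)⁻¹ + ((1 + |Lam * x + Lam * ρ|) ^ 2)⁻¹) *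
      bz n L v w) :
    Y ≤ C * Lam * (L ^ (n - 1) * 2) *
      (((1 + |Lam * x - Lam * ρ|) ^ 2)⁻¹ + ((1 + |Lam * x + Lam * ρ|) ^ 2)⁻¹) := by
  refine h.trans ?_
  have h1 : 0 ≤ C * Lam * (((1 + |Lam * x - Lam * ρ|) ^ 2)⁻¹ +
      ((1 + |Lam * x + Lam * ρ|) ^ 2)⁻¹) := by positivity
  have h2 := mul_le_mul_of_nonneg_left (bz_le n L hL v w) h1
  linarith

lemma dec_both (hKW : T_KW) (n : ℕ) (hn : 2 ≤ n) (L Lam : ℝ) (hL : 1 ≤ L) (hLam : 0 < Lam) :
    ∃ C : ℝ, 0 ≤ C ∧ Dec n L chi Lam C ∧ Dec n L chis Lam C := by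
  obtain ⟨C, hC, hK⟩ := hKW n 2 hn
  refine ⟨C * Lam * (L ^ (n - 1) * 2), by positivity, ?_, ?_⟩
  · intro x ρ u w hρ hρ0
    rw [← kzc_eq n L chi H27.hchi Lam hLam u w x ρ hρ0]
    exact dec_aux (by linarith) hLam hC (hK L Lam x ρ u w hL hLam hρ).1
  · intro x ρ u w hρ hρ0
    rw [← kzc_eq n L chis H27.hchis Lam hLam u w x ρ hρ0]
    exact dec_aux (by linarith) hLam hC (hK L Lam x ρ u w hL hLam hρ).2

/-- decay, uniform for `ρ` in a compact set -/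
lemma kzc_dom {n : ℕ} {L Lam C : ℝ} {χ : ℝ → ℝ} (hD : Dec n L χ Lam C) (hC : 0 ≤ C)
    (hL : 0 < Lam) (R : ℝ) :
    ∃ C' : ℝ, 0 ≤ C' ∧ ∀ (x ρ : ℝ) (u w : Sp n), L ^ 2 ≤ Lam * ρ → 0 ≤ ρ → ρ ≤ R →
      ‖kzc n L χ Lam (u : EE n) (w : EE n) x ρ‖ ≤ C' * ((1 + |x|) ^ 2)⁻¹ := by
  obtain ⟨D, hD'⟩ : ∃ D, D = (1 + Lam * |R|) * (1 + Lam⁻¹) := ⟨_, rfl⟩
  have hDp : 0 < D := by rw [hD']; positivity
  refine ⟨C * (2 * D ^ 2), by positivity, fun x ρ u w hρ2 hρ hR => ?_⟩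
  have h1 := hD x ρ u w hρ2 hρ
  have key : ∀ y : ℝ, |Lam * x| ≤ |y| + Lam * ρ → ((1 + |y|) ^ 2)⁻¹ ≤ D ^ 2 * ((1 + |x|) ^ 2)⁻¹ := by
    intro y hy
    have h2 : 1 + |x| ≤ D * (1 + |y|) := by
      rw [abs_mul, abs_of_pos hL] at hy
      have h3 : |x| ≤ Lam⁻¹ * (|y| + Lam * ρ) := by
        rw [inv_mul_eq_div, le_div_iff₀ hL]; linarith
      have h4 : ρ ≤ |R| := hR.trans (le_abs_self R)
      have h5 : Lam * ρ ≤ Lam * |R| := mul_le_mul_of_nonneg_left h4 hL.le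
      have h6 : 0 ≤ |y| := abs_nonneg y
      have h7 : 0 < Lam⁻¹ := inv_pos.mpr hL
      have h8 : |y| + Lam * ρ ≤ (1 + Lam * |R|) * (1 + |y|) := by
        have : 0 ≤ Lam * |R| * |y| := by positivity
        nlinarith
      have h9 : 1 ≤ (1 + Lam * |R|) * (1 + |y|) := by
        have : 0 ≤ Lam * |R| * |y| := by positivity
        have : 0 ≤ Lam * |R| := by positivity
        nlinarith
      calc 1 + |x| ≤ (1 + Lam * |R|) * (1 + |y|) + Lam⁻¹ * ((1 + Lam * |R|) * (1 + |y|)) := by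
            refine add_le_add h9 (h3.trans ?_)
            exact mul_le_mul_of_nonneg_left h8 h7.le
        _ = D * (1 + |y|) := by rw [hD']; ring
    have h10 : (1 + |x|) ^ 2 ≤ D ^ 2 * (1 + |y|) ^ 2 := by
      rw [← mul_pow]
      exact pow_le_pow_left₀ (by positivity) h2 2
    rw [← div_eq_mul_inv, le_div_iff₀ (by positivity), inv_mul_eq_div, div_le_iff₀ (by positivity)]
    exact h10
  have h3 : |Lam * x| ≤ |Lam * x - Lam * ρ| + Lam * ρ := by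
    have := abs_add_le (Lam * x - Lam * ρ) (Lam * ρ)
    rw [abs_of_nonneg (mul_nonneg hL.le hρ)] at this
    simpa using this
  have h4 : |Lam * x| ≤ |Lam * x + Lam * ρ| + Lam * ρ := by
    have := abs_sub (Lam * x + Lam * ρ) (Lam * ρ)
    rw [abs_of_nonneg (mul_nonneg hL.le hρ)] at this
    simpa using this
  have h5 := key _ h3
  have h6 := key _ h4
  calc ‖kzc n L χ Lam (u : EE n) (w : EE n) x ρ‖
      ≤ C * (D ^ 2 * ((1 + |x|) ^ 2)⁻¹ + D ^ 2 * ((1 + |x|) ^ 2)⁻¹) := by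
        refine h1.trans ?_
        exact mul_le_mul_of_nonneg_left (add_le_add h5 h6) hC
    _ = _ := by ring

lemma kzc_integrable {n : ℕ} {L M Lam C : ℝ} {χ : ℝ → ℝ} (hZ : ZK n L M) (hc : Continuous χ)
    (hD : Dec n L χ Lam C) (hC : 0 ≤ C) (hL : 0 < Lam) (u w : Sp n) (ρ : ℝ)
    (hρ2 : L ^ 2 ≤ Lam * ρ) (hρ : 0 ≤ ρ) :
    Integrable (fun x => kzc n L χ Lam (u : EE n) (w : EE n) x ρ) := by
  obtain ⟨C', hC', hk⟩ := kzc_dom hD hC hL ρ
  refine (H27.integrable_w2.const_mul C').mono' ?_ (Filter.Eventually.of_forall (fun x => ?_))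
  · have h1 := (kzc_meas hZ χ hc Lam (u : EE n)).comp
      (measurable_const.prodMk measurable_id : Measurable fun x : ℝ => (((w : EE n), ρ), x))
    exact h1.aestronglyMeasurable
  · exact hk x ρ u w hρ2 hρ le_rfl

lemma kzc_fourier (n : ℕ) (L : ℝ) (χ : ℝ → ℝ) (Lam : ℝ) (u w : EE n) (x ρ : ℝ) :
    kzc n L χ Lam u w x ρ = 𝓕⁻ (hz n L χ Lam u w ρ) x := by
  unfold kzc
  rw [Real.fourierInv_eq']
  congr 1

/-- Fourier inversion -/
lemma kzc_inv {n : ℕ} (hn : 2 ≤ n) {L M Lam C : ℝ} {χ : ℝ → ℝ} (hZ : ZK n L M)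
    (hc : Continuous χ) (hχ : ∀ s, χ s ≠ 0 → 1 / 8 ≤ s ∧ s ≤ 8) (hD : Dec n L χ Lam C)
    (hC : 0 ≤ C) (hL : 0 < Lam) (u w : Sp n) (ρ s : ℝ)
    (hρ2 : L ^ 2 ≤ Lam * ρ) (hρ : 0 ≤ ρ) :
    ∫ x : ℝ, e (-(x * s)) * kzc n L χ Lam (u : EE n) (w : EE n) x ρ =
      hz n L χ Lam (u : EE n) (w : EE n) ρ s := by
  obtain ⟨g, hg⟩ : ∃ g : ℝ → ℂ, g = hz n L χ Lam (u : EE n) (w : EE n) ρ := ⟨_, rfl⟩
  have hgc : Continuous g := by
    rw [hg]; exact hz_cont hn hZ χ hc Lam u w (norm_Sp w) ρ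
  have hgs : HasCompactSupport g := by
    apply HasCompactSupport.intro (isCompact_Icc : IsCompact (Icc 0 (8 * Lam)))
    intro s hs
    by_contra h
    rw [hg] at h
    exact hs (hz_supp n L χ hχ Lam hL _ _ ρ s h)
  have hgi : Integrable g := hgc.integrable_of_hasCompactSupport hgs
  have h1 : (fun x => kzc n L χ Lam (u : EE n) (w : EE n) x ρ) = 𝓕⁻ g := by
    ext x; rw [hg]; exact kzc_fourier n L χ Lam u w x ρ
  have h2 : Integrable (𝓕⁻ g) := by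
    rw [← h1]; exact kzc_integrable hZ hc hD hC hL u w ρ hρ2 hρ
  have h3 : Integrable (𝓕 g) := by
    have h4 : 𝓕 g = fun x => 𝓕⁻ g (-x) := by
      ext x; rw [Real.fourierInv_eq_fourier_neg, neg_neg]
    rw [h4]
    exact h2.comp_neg
  have h5 := hgc.fourier_fourierInv_eq hgi h3
  have h6 : 𝓕 (𝓕⁻ g) s = g s := by rw [h5]
  rw [← h1, Real.fourier_real_eq_integral_exp_smul] at h6
  rw [hg] at h6
  rw [← h6]
  congr 1
  ext x
  rw [smul_eq_mul]
  congr 1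
  unfold e
  congr 2
  push_cast
  ring

/-- the conjugate version -/
lemma kzc_inv' {n : ℕ} (hn : 2 ≤ n) {L M Lam C : ℝ} {χ : ℝ → ℝ} (hZ : ZK n L M)
    (hc : Continuous χ) (hχ : ∀ s, χ s ≠ 0 → 1 / 8 ≤ s ∧ s ≤ 8) (hD : Dec n L χ Lam C)
    (hC : 0 ≤ C) (hL : 0 < Lam) (u w : Sp n) (ρ s : ℝ)
    (hρ2 : L ^ 2 ≤ Lam * ρ) (hρ : 0 ≤ ρ) :
    ∫ x : ℝ, (starRingEnd ℂ) (kzc n L χ Lam (u : EE n) (w : EE n) x ρ) * e (x * s) =
      (starRingEnd ℂ) (hz n L χ Lam (u : EE n) (w : EE n) ρ s) := by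
  have h1 := kzc_inv hn hZ hc hχ hD hC hL u w ρ s hρ2 hρ
  have h2 := congrArg (starRingEnd ℂ) h1
  rw [← integral_conj] at h2
  rw [← h2]
  congr 1
  ext x
  rw [map_mul, conj_e, neg_neg, mul_comm]

end Pool.Agent.H4.BR
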