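import Pool.Agent.H4.BR.Kzi
import Pool.Agent.H54.LS.AVG

/-!
# The Fourier transform of the functions in the plane attached to directions (module RA)
-/

set_option autoImplicit false

namespace Pool.Agent.H4.BR

open MeasureTheory Set FourierTransform
open Pool.Agent.H83.LS Pool.Agent.H93.AR Pool.Agent.H83.AR
open Pool.Agent.H54.LS (Sp sg nu)
open scoped ENNReal NNReal

section abs

variable {S : Type*} [MeasurableSpace S] (σ : Measure S) [IsFiniteMeasure σ]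

lemma ind_int_Ioc (R : ℝ) :
    Integrable ((Ioc (0 : ℝ) R).indicator fun _ => (1 : ℝ)) (volume.restrict (Ioi 0)) := by
  have h1 : Integrable ((Ioc (0 : ℝ) R).indicator fun _ => (1 : ℝ)) := by
    rw [integrable_indicator_iff measurableSet_Ioc]
    exact integrableOn_const (by rw [Real.volume_Ioc]; exact ENNReal.ofReal_ne_top)
  exact h1.mono_measure Measure.restrict_le_self

lemma ind_int_Icc (R : ℝ) : Integrable ((Icc (-R) R).indicator fun _ => (1 : ℝ)) := by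
  rw [integrable_indicator_iff measurableSet_Icc]
  exact integrableOn_const (by rw [Real.volume_Icc]; exact ENNReal.ofReal_ne_top)

/-- the abstract form of the computation of the Fourier transform of `GT` -/
lemma absA {K : ℝ → ℝ → S → ℂ} {G : ℝ → S → ℝ → ℂ} {H : ℝ → S → ℂ} (ζ : ℝ × ℝ) {A C R : ℝ}
    (hC : 0 ≤ C)
    (hK : Measurable fun p : ℝ × (ℝ × S) => K p.1 p.2.1 p.2.2)
    (hG : Measurable fun p : ℝ × (ℝ × S) => G p.2.1 p.2.2 p.1)
    (hGs : ∀ ρ w z, G ρ w z ≠ 0 → ρ ∈ Ioc 0 R ∧ z ∈ Icc (-R) R)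
    (hGb : ∀ ρ w z, ‖G ρ w z‖ ≤ A)
    (hKb : ∀ x ρ w z, G ρ w z ≠ 0 → ‖K x ρ w‖ ≤ C * ((1 + |x|) ^ 2)⁻¹)
    (hKH : ∀ ρ w z, G ρ w z ≠ 0 → ∫ x, e (-(x * ζ.1)) * K x ρ w = H ρ w) :
    Integrable (fun q : ℝ × S => H q.1 q.2 * ∫ z, e (-(z * ζ.2)) * G q.1 q.2 z)
      ((volume.restrict (Ioi 0)).prod σ) ∧
    ∫ x : ℝ × ℝ, e (-(x.1 * ζ.1 + x.2 * ζ.2)) *
      (∫ ρ in Ioi (0 : ℝ), ∫ w, K x.1 ρ w * G ρ w x.2 ∂σ) =
      ∫ q : ℝ × S, H q.1 q.2 * (∫ z, e (-(z * ζ.2)) * G q.1 q.2 z)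
        ∂((volume.restrict (Ioi 0)).prod σ) := by
  obtain ⟨μ, hμ⟩ : ∃ μ, μ = (volume.restrict (Ioi (0 : ℝ))).prod σ := ⟨_, rfl⟩
  have hsf : SFinite μ := by
    rw [hμ]
    infer_instance
  obtain ⟨Φ, hΦ⟩ : ∃ Φ : ℝ × ℝ → ℝ × S → ℂ, Φ = fun x q => e (-(x.1 * ζ.1 + x.2 * ζ.2)) *
    (K x.1 q.1 q.2 * G q.1 q.2 x.2) := ⟨_, rfl⟩
  have hw : Integrable (fun q : ℝ × S => (Ioc (0 : ℝ) R).indicator (fun _ => (1 : ℝ)) q.1 * 1)
      μ := by
    rw [hμ]
    exact (ind_int_Ioc R).mul_prod (integrable_const (1 : ℝ))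
  have hx : Integrable (fun x : ℝ × ℝ => (C * ((1 + |x.1|) ^ 2)⁻¹) *
      (A * (Icc (-R) R).indicator (fun _ => (1 : ℝ)) x.2)) (volume : Measure (ℝ × ℝ)) := by
    rw [Measure.volume_eq_prod]
    exact (H27.integrable_w2.const_mul C).mul_prod ((ind_int_Icc R).const_mul A)
  have hb : ∀ (x : ℝ × ℝ) (q : ℝ × S), ‖K x.1 q.1 q.2 * G q.1 q.2 x.2‖ ≤
      ((C * ((1 + |x.1|) ^ 2)⁻¹) * (A * (Icc (-R) R).indicator (fun _ => (1 : ℝ)) x.2)) *
        ((Ioc (0 : ℝ) R).indicator (fun _ => (1 : ℝ)) q.1 * 1) := by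
    intro x q
    by_cases hz : G q.1 q.2 x.2 = 0
    · rw [hz, mul_zero, norm_zero]
      have hA : 0 ≤ A := (norm_nonneg _).trans (hGb q.1 q.2 x.2)
      have i1 : 0 ≤ (Icc (-R) R).indicator (fun _ => (1 : ℝ)) x.2 :=
        indicator_nonneg (fun _ _ => zero_le_one) _
      have i2 : 0 ≤ (Ioc (0 : ℝ) R).indicator (fun _ => (1 : ℝ)) q.1 :=
        indicator_nonneg (fun _ _ => zero_le_one) _
      positivity
    · obtain ⟨h1, h2⟩ := hGs _ _ _ hz
      rw [indicator_of_mem h1, indicator_of_mem h2, norm_mul, mul_one, mul_one, mul_one]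
      exact mul_le_mul (hKb _ _ _ _ hz) (hGb _ _ _) (norm_nonneg _) (by positivity)
  have hm : Measurable fun p : (ℝ × ℝ) × (ℝ × S) => K p.1.1 p.2.1 p.2.2 * G p.2.1 p.2.2 p.1.2 := by
    apply Measurable.mul
    · exact hK.comp ((measurable_fst.comp measurable_fst).prodMk measurable_snd)
    · exact hG.comp ((measurable_snd.comp measurable_fst).prodMk measurable_snd)
  have hem : Measurable fun x : ℝ × ℝ => e (-(x.1 * ζ.1 + x.2 * ζ.2)) :=
    measurable_e.comp (by fun_prop)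
  have hΦi : Integrable (Function.uncurry Φ) ((volume : Measure (ℝ × ℝ)).prod μ) := by
    refine (hx.mul_prod hw).mono' ?_ (Filter.Eventually.of_forall fun p => ?_)
    · rw [hΦ]
      exact ((hem.comp measurable_fst).mul hm).aestronglyMeasurable
    · rw [hΦ]
      show ‖e _ * _‖ ≤ _
      rw [norm_mul, norm_e, one_mul]
      exact hb p.1 p.2
  have h1 : ∀ x : ℝ × ℝ, e (-(x.1 * ζ.1 + x.2 * ζ.2)) *
      (∫ ρ in Ioi (0 : ℝ), ∫ w, K x.1 ρ w * G ρ w x.2 ∂σ) = ∫ q, Φ x q ∂μ := by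
    intro x
    have hi : Integrable (fun q : ℝ × S => K x.1 q.1 q.2 * G q.1 q.2 x.2)
        ((volume.restrict (Ioi (0 : ℝ))).prod σ) := by
      rw [← hμ]
      refine (hw.const_mul ((C * ((1 + |x.1|) ^ 2)⁻¹) *
        (A * (Icc (-R) R).indicator (fun _ => (1 : ℝ)) x.2))).mono' ?_
        (Filter.Eventually.of_forall fun q => hb x q)
      exact (hm.comp (measurable_const.prodMk measurable_id)).aestronglyMeasurable
    have h2 := integral_prod _ hi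
    simp only at h2
    rw [← h2, ← hμ, ← integral_const_mul, hΦ]
  have h3 : ∀ q : ℝ × S, ∫ x : ℝ × ℝ, Φ x q =
      H q.1 q.2 * ∫ z, e (-(z * ζ.2)) * G q.1 q.2 z := by
    intro q
    have h4 : ∫ x : ℝ × ℝ, Φ x q =
        (∫ x : ℝ, e (-(x * ζ.1)) * K x q.1 q.2) * ∫ z : ℝ, e (-(z * ζ.2)) * G q.1 q.2 z := by
      rw [← integral_prod_mul (fun x : ℝ => e (-(x * ζ.1)) * K x q.1 q.2)
        (fun z : ℝ => e (-(z * ζ.2)) * G q.1 q.2 z), ← Measure.volume_eq_prod]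
      congr 1
      ext x
      rw [hΦ]
      simp only
      rw [neg_add, e_add]
      ring
    rw [h4]
    by_cases hz : ∃ z, G q.1 q.2 z ≠ 0
    · obtain ⟨z, hz⟩ := hz
      rw [hKH _ _ _ hz]
    · push Not at hz
      simp [hz]
  constructor
  · have h5 := hΦi.integral_prod_right
    rw [hμ] at h5
    refine h5.congr (Filter.Eventually.of_forall fun q => ?_)
    exact h3 q
  · calc _ = ∫ x : ℝ × ℝ, (∫ q, Φ x q ∂μ) := by
          congr 1
          ext x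
          exact h1 x
      _ = ∫ q, (∫ x : ℝ × ℝ, Φ x q) ∂μ := integral_integral_swap hΦi
      _ = _ := by
          rw [← hμ]
          congr 1
          ext q
          exact h3 q

lemma nu_fin (n : ℕ) (R : ℝ) :
    Integrable (fun ρ : Ioi (0 : ℝ) => (Iic R).indicator (fun _ => (1 : ℝ)) (ρ : ℝ)) (nu n) := by
  have h1 : (fun ρ : Ioi (0 : ℝ) => (Iic R).indicator (fun _ => (1 : ℝ)) (ρ : ℝ)) =
      ((Subtype.val : Ioi (0 : ℝ) → ℝ) ⁻¹' Iic R).indicator fun _ => (1 : ℝ) := by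
    ext ρ
    rfl
  rw [h1, integrable_indicator_iff (measurable_subtype_coe measurableSet_Iic)]
  refine integrableOn_const ?_
  have h2 : ((Subtype.val : Ioi (0 : ℝ) → ℝ) ⁻¹' Iic R) ⊆
      Iio (⟨|R| + 1, mem_Ioi.2 (by positivity)⟩ : Ioi (0 : ℝ)) := by
    intro ρ hρ
    have h3 : (ρ : ℝ) ≤ R := hρ
    show (ρ : ℝ) < |R| + 1
    have := le_abs_self R
    linarith
  refine ne_top_of_le_ne_top ?_ (measure_mono h2)
  rw [Measure.volumeIoiPow_apply_Iio]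
  exact ENNReal.ofReal_ne_top

lemma nu_integral (n : ℕ) (g : ℝ → ℂ) :
    ∫ ρ : Ioi (0 : ℝ), g ρ ∂(nu n) = ∫ ρ in Ioi (0 : ℝ), ((ρ ^ (n - 1) : ℝ) : ℂ) * g ρ := by
  have h0 : ∫ ρ : Ioi (0 : ℝ), g ρ ∂(nu n) =
      ∫ ρ : Ioi (0 : ℝ), ((((ρ : ℝ) ^ (n - 1)).toNNReal : ℝ≥0) : ℝ) • g ρ
        ∂(Measure.comap Subtype.val volume) := by
    unfold nu Measure.volumeIoiPow
    rw [integral_withDensity_eq_integral_toReal_smul]
    · refine integral_congr_ae (Filter.Eventually.of_forall fun ρ => ?_)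
      rfl
    · fun_prop
    · exact Filter.Eventually.of_forall fun ρ => ENNReal.ofReal_lt_top
  rw [h0, integral_subtype_comap measurableSet_Ioi
    (fun ρ : ℝ => (((ρ ^ (n - 1)).toNNReal : ℝ≥0) : ℝ) • g ρ)]
  refine setIntegral_congr_fun measurableSet_Ioi fun ρ hρ => ?_
  have hρ' : (0 : ℝ) < ρ := hρ
  rw [Real.coe_toNNReal _ (pow_nonneg hρ'.le _), Complex.real_smul]

/-- the abstract form of the Fourier transform in cylindrical coordinates -/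
lemma absB (n : ℕ) {zf : S → S → ℝ} {Ef : S → ℝ → ℂ} {F : ℝ → S → ℝ → ℂ} {B M R : ℝ}
    (hzm : Measurable fun p : S × S => zf p.1 p.2) (hzb : ∀ u w, |zf u w| ≤ M)
    (hEm : Measurable fun p : S × ℝ => Ef p.1 p.2) (hEb : ∀ u ρ, ‖Ef u ρ‖ ≤ 1)
    (hFm : Measurable fun p : (ℝ × ℝ) × S => F p.1.1 p.2 p.1.2)
    (hFs : ∀ ρ w z, F ρ w z ≠ 0 → ρ ≤ R ∧ z ∈ Icc (-R) R)
    (hFb : ∀ ρ w z, ‖F ρ w z‖ ≤ B) :
    ∫ p : S × (Ioi (0 : ℝ) × ℝ), (∫ w, (Ef p.1 p.2.1 * ((zf p.1 w : ℝ) : ℂ)) *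
      F p.2.1 w p.2.2 ∂σ) ∂(σ.prod ((nu n).prod volume)) =
    ∫ w, (∫ ρ in Ioi (0 : ℝ), ((ρ ^ (n - 1) : ℝ) : ℂ) *
      ((∫ u, Ef u ρ * ((zf u w : ℝ) : ℂ) ∂σ) * ∫ z, F ρ w z)) ∂σ := by
  obtain ⟨Ψ, hΨ⟩ : ∃ Ψ : S × (Ioi (0 : ℝ) × ℝ) → S → ℂ, Ψ = fun p w =>
    (Ef p.1 p.2.1 * ((zf p.1 w : ℝ) : ℂ)) * F p.2.1 w p.2.2 := ⟨_, rfl⟩
  have hbase : Integrable (fun p : S × (Ioi (0 : ℝ) × ℝ) => (M * B) *
      ((Iic R).indicator (fun _ => (1 : ℝ)) (p.2.1 : ℝ) *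
        (Icc (-R) R).indicator (fun _ => (1 : ℝ)) p.2.2)) (σ.prod ((nu n).prod volume)) :=
    (integrable_const (M * B)).mul_prod ((nu_fin n R).mul_prod (ind_int_Icc R))
  have hb : ∀ (p : S × (Ioi (0 : ℝ) × ℝ)) (w : S), ‖Ψ p w‖ ≤ (M * B) *
      ((Iic R).indicator (fun _ => (1 : ℝ)) (p.2.1 : ℝ) *
        (Icc (-R) R).indicator (fun _ => (1 : ℝ)) p.2.2) := by
    intro p w
    rw [hΨ]
    simp only
    by_cases hz : F p.2.1 w p.2.2 = 0
    · rw [hz, mul_zero, norm_zero]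
      have hA : 0 ≤ B := (norm_nonneg _).trans (hFb p.2.1 w p.2.2)
      have hM : 0 ≤ M := (abs_nonneg _).trans (hzb p.1 w)
      have i1 : 0 ≤ (Icc (-R) R).indicator (fun _ => (1 : ℝ)) p.2.2 :=
        indicator_nonneg (fun _ _ => zero_le_one) _
      have i2 : 0 ≤ (Iic R).indicator (fun _ => (1 : ℝ)) (p.2.1 : ℝ) :=
        indicator_nonneg (fun _ _ => zero_le_one) _
      positivity
    · obtain ⟨h1, h2⟩ := hFs _ _ _ hz
      have h1' : (p.2.1 : ℝ) ∈ Iic R := h1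
      have hM : 0 ≤ M := (abs_nonneg _).trans (hzb p.1 w)
      rw [indicator_of_mem h1', indicator_of_mem h2, norm_mul, norm_mul, mul_one, mul_one,
        Complex.norm_real, Real.norm_eq_abs]
      refine mul_le_mul ?_ (hFb _ _ _) (norm_nonneg _) hM
      calc _ ≤ 1 * M := mul_le_mul (hEb _ _) (hzb _ _) (abs_nonneg _) zero_le_one
        _ = M := one_mul M
  have hm : Measurable fun q : (S × (Ioi (0 : ℝ) × ℝ)) × S => Ψ q.1 q.2 := by
    rw [hΨ]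
    have c1 : Measurable fun q : (S × (Ioi (0 : ℝ) × ℝ)) × S => ((q.1.2.1 : Ioi (0 : ℝ)) : ℝ) :=
      measurable_subtype_coe.comp (measurable_fst.comp (measurable_snd.comp measurable_fst))
    apply Measurable.mul
    · apply Measurable.mul
      · exact hEm.comp ((measurable_fst.comp measurable_fst).prodMk c1)
      · exact Complex.measurable_ofReal.comp
          (hzm.comp ((measurable_fst.comp measurable_fst).prodMk measurable_snd))
    · exact hFm.comp ((c1.prodMk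
        (measurable_snd.comp (measurable_snd.comp measurable_fst))).prodMk measurable_snd)
  have hΨi : Integrable (Function.uncurry Ψ) ((σ.prod ((nu n).prod volume)).prod σ) := by
    refine (hbase.mul_prod (integrable_const (1 : ℝ))).mono' hm.aestronglyMeasurable
      (Filter.Eventually.of_forall fun q => ?_)
    rw [mul_one]
    exact hb q.1 q.2
  have h1 : ∫ p, (∫ w, Ψ p w ∂σ) ∂(σ.prod ((nu n).prod volume)) =
      ∫ w, (∫ p, Ψ p w ∂(σ.prod ((nu n).prod volume))) ∂σ := integral_integral_swap hΨi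
  have h2 : ∀ w, ∫ p, Ψ p w ∂(σ.prod ((nu n).prod volume)) =
      ∫ ρ in Ioi (0 : ℝ), ((ρ ^ (n - 1) : ℝ) : ℂ) *
      ((∫ u, Ef u ρ * ((zf u w : ℝ) : ℂ) ∂σ) * ∫ z, F ρ w z) := by
    intro w
    have hi : Integrable (fun p => Ψ p w) (σ.prod ((nu n).prod volume)) := by
      refine hbase.mono' ?_ (Filter.Eventually.of_forall fun p => hb p w)
      exact (hm.comp (measurable_id.prodMk measurable_const)).aestronglyMeasurable
    have hi2 := hi.integral_prod_right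
    have h3 : ∀ r : Ioi (0 : ℝ) × ℝ, ∫ u, Ψ (u, r) w ∂σ =
        (∫ u, Ef u r.1 * ((zf u w : ℝ) : ℂ) ∂σ) * F r.1 w r.2 := by
      intro r
      rw [← integral_mul_const, hΨ]
    have hi3 : Integrable (fun r : Ioi (0 : ℝ) × ℝ =>
        (∫ u, Ef u r.1 * ((zf u w : ℝ) : ℂ) ∂σ) * F r.1 w r.2) ((nu n).prod volume) :=
      hi2.congr (Filter.Eventually.of_forall fun r => h3 r)
    rw [integral_prod_symm _ hi]
    calc _ = ∫ r : Ioi (0 : ℝ) × ℝ, (∫ u, Ef u r.1 * ((zf u w : ℝ) : ℂ) ∂σ) * F r.1 w r.2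
          ∂((nu n).prod volume) := integral_congr_ae (Filter.Eventually.of_forall fun r => h3 r)
      _ = ∫ ρ : Ioi (0 : ℝ), (∫ z, (∫ u, Ef u ρ * ((zf u w : ℝ) : ℂ) ∂σ) * F ρ w z) ∂(nu n) :=
          integral_prod _ hi3
      _ = ∫ ρ : Ioi (0 : ℝ), (fun ρ : ℝ => (∫ u, Ef u ρ * ((zf u w : ℝ) : ℂ) ∂σ) *
            ∫ z, F ρ w z) ρ ∂(nu n) := by
          congr 1
          ext ρ
          rw [integral_const_mul]
      _ = _ := nu_integral n (fun ρ : ℝ => (∫ u, Ef u ρ * ((zf u w : ℝ) : ℂ) ∂σ) *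
            ∫ z, F ρ w z)
  have h4 : ∫ p : S × (Ioi (0 : ℝ) × ℝ), (∫ w, (Ef p.1 p.2.1 * ((zf p.1 w : ℝ) : ℂ)) *
      F p.2.1 w p.2.2 ∂σ) ∂(σ.prod ((nu n).prod volume)) =
      ∫ p, (∫ w, Ψ p w ∂σ) ∂(σ.prod ((nu n).prod volume)) := by rw [hΨ]
  rw [h4, h1]
  exact integral_congr_ae (Filter.Eventually.of_forall fun w => h2 w)

end abs

lemma jo_smul_norm {n : ℕ} (ρ z : ℝ) (w : Sp n) :
    ‖jo (ρ • (w : EE n)) z‖ ^ 2 = ρ ^ 2 + z ^ 2 := by
  rw [Pool.Agent.H54.LS.jo_norm_sq, norm_smul, norm_Sp, mul_one, Real.norm_eq_abs, sq_abs]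

lemma jo_smul_hor {n : ℕ} (ρ z : ℝ) (hρ : 0 ≤ ρ) (w : Sp n) :
    hor (jo (ρ • (w : EE n)) z) = ρ := by
  rw [Pool.Agent.H54.LS.hor_jo, norm_smul, norm_Sp, mul_one, Real.norm_eq_abs, abs_of_nonneg hρ]

lemma f_supp {n : ℕ} {f : EE (n + 1) → ℂ} {R ρ z : ℝ} {w : Sp n}
    (hR : ∀ x, R < ‖x‖ → f x = 0) (h : f (jo (ρ • (w : EE n)) z) ≠ 0) :
    ρ ≤ |R| ∧ z ∈ Icc (-|R|) |R| := by
  have h1 : ‖jo (ρ • (w : EE n)) z‖ ≤ R := by
    by_contra h2
    push Not at h2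
    exact h (hR _ h2)
  have h0 : 0 ≤ R := (norm_nonneg _).trans h1
  have h2 := jo_smul_norm ρ z w
  have h3 : ρ ^ 2 + z ^ 2 ≤ R ^ 2 := by
    rw [← h2]
    exact pow_le_pow_left₀ (norm_nonneg _) h1 2
  rw [abs_of_nonneg h0]
  refine ⟨?_, ?_⟩
  · exact (abs_le_of_sq_le_sq' (by nlinarith [sq_nonneg z]) h0).2
  · exact abs_le_of_sq_le_sq' (by nlinarith [sq_nonneg ρ]) h0

lemma f_meas {n : ℕ} {f : EE (n + 1) → ℂ} (hf : Measurable f) :
    Measurable fun p : (ℝ × ℝ) × Sp n => f (jo (p.1.1 • (p.2 : EE n)) p.1.2) := by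
  have h1 : Continuous fun p : (ℝ × ℝ) × Sp n =>
      ((p.1.1 • (p.2 : EE n), p.1.2) : EE n × ℝ) :=
    ((continuous_fst.comp continuous_fst).smul
      (continuous_subtype_val.comp continuous_snd)).prodMk (continuous_snd.comp continuous_fst)
  exact hf.comp (Pool.Agent.H54.LS.continuous_jo.comp h1).measurable

/-- the Fourier transform of an angular average in cylindrical coordinates -/
lemma fourier_AL {n : ℕ} (hn : 2 ≤ n) {L M B : ℝ} (hZ : ZK n L M) {f : EE (n + 1) → ℂ}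
    (hf : BCd B f) (hALm : Measurable (AL L f)) (v : Sp n) (ζ : ℝ × ℝ) :
    𝓕 (AL L f) (jo (ζ.1 • (v : EE n)) ζ.2) =
      ∫ w : Sp n, (∫ ρ in Ioi (0 : ℝ), ((ρ ^ (n - 1) : ℝ) : ℂ) *
        (ZL n L (ρ * ζ.1) v w * ∫ z, e (-(z * ζ.2)) * f (jo (ρ • (w : EE n)) z))) ∂(sg n) := by
  obtain ⟨hfm, hfb, R, hR⟩ := hf
  have hmp := Pool.Agent.H54.LS.mp_cyl n (by omega : 1 ≤ n)
  have hg : Measurable fun y : EE (n + 1) =>
      e (-(inner ℝ y (jo (ζ.1 • (v : EE n)) ζ.2))) * AL L f y :=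
    (measurable_e.comp (continuous_id.inner continuous_const).neg.measurable).mul hALm
  rw [Pool.Agent.H14.LS.ff_eq, ← Pool.Agent.H54.LS.integral_mp hmp hg.aestronglyMeasurable]
  have hB := absB (sg n) n (zf := fun u w : Sp n => zk n L (u : EE n) (w : EE n))
    (Ef := fun (u : Sp n) (ρ : ℝ) => e (-(ρ * ζ.1 * inner ℝ (v : EE n) (u : EE n))))
    (F := fun (ρ : ℝ) (w : Sp n) (z : ℝ) => e (-(z * ζ.2)) * f (jo (ρ • (w : EE n)) z))
    (B := B) (M := M) (R := |R|)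
    (by
      have h1 : Measurable fun p : Sp n × Sp n => (((p.1 : EE n), (p.2 : EE n)) : EE n × EE n) :=
        ((coe_meas n).comp measurable_fst).prodMk ((coe_meas n).comp measurable_snd)
      obtain ⟨F, hF⟩ : ∃ F : EE n × EE n → ℝ, F = fun q => zk n L q.1 q.2 := ⟨_, rfl⟩
      have h2 : Measurable F := by rw [hF]; exact hZ.meas
      have h3 := h2.comp h1
      rw [hF] at h3
      exact h3)
    (fun u w => by
      rw [abs_of_nonneg (hZ.nonneg _ _)]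
      exact hZ.le _ _ (norm_Sp u) (norm_Sp w))
    (by
      apply measurable_e.comp
      exact ((measurable_snd.mul_const ζ.1).mul ((inner_meas (v : EE n)).comp
        measurable_fst)).neg)
    (fun u ρ => (norm_e _).le)
    (by
      have h1 : Measurable fun p : (ℝ × ℝ) × Sp n => e (-(p.1.2 * ζ.2)) :=
        measurable_e.comp ((measurable_snd.comp measurable_fst).mul_const ζ.2).neg
      exact h1.mul (f_meas hfm))
    (fun ρ w z h => f_supp hR (right_ne_zero_of_mul h))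
    (fun ρ w z => by
      rw [norm_mul, norm_e, one_mul]
      exact hfb _)
  refine Eq.trans ?_ hB
  refine integral_congr_ae (Filter.Eventually.of_forall fun p => ?_)
  obtain ⟨u, ρ, z⟩ := p
  simp only
  have hρ : (0 : ℝ) < ρ := ρ.2
  have h1 : AL L f (jo ((ρ : ℝ) • (u : EE n)) z) =
      ∫ w : Sp n, ((zk n L (u : EE n) (w : EE n) : ℝ) : ℂ) *
        f (jo ((ρ : ℝ) • (w : EE n)) z) ∂(sg n) := by
    unfold AL
    rw [jo_smul_hor _ _ hρ.le, Pool.Agent.H54.LS.pr_jo, Pool.Agent.H54.LS.jo_last, smul_smul,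
      inv_mul_cancel₀ hρ.ne', one_smul]
  have h2 : inner ℝ (jo ((ρ : ℝ) • (u : EE n)) z) (jo (ζ.1 • (v : EE n)) ζ.2) =
      ρ * ζ.1 * inner ℝ (v : EE n) (u : EE n) + z * ζ.2 := by
    rw [Pool.Agent.H54.LS.jo_inner, real_inner_smul_left, real_inner_smul_right,
      real_inner_comm]
    ring
  rw [h1, h2, neg_add, e_add, ← integral_const_mul]
  refine integral_congr_ae (Filter.Eventually.of_forall fun w => ?_)
  simp only
  ring

theorem pf_ra (hKW : T_KW) (hZB : T_ZB) (hAM : T_AM) : T_RA := by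
  intro n L Lam B f v ζ hn hL hLam hf hsupp
  obtain ⟨M, hM, hZ⟩ := zk_of hZB n (by omega) L hL
  obtain ⟨C, hC, hD, -⟩ := dec_both hKW n hn L Lam hL hLam
  have hf' := hf
  obtain ⟨hfm, hfb, R, hR⟩ := hf
  have hALm : Measurable (AL L f) := (hAM n L (by omega) hL).1 f hfm
  obtain ⟨C', hC', hk⟩ := kzc_dom hD hC hLam |R|
  have hB0 : 0 ≤ B := (norm_nonneg _).trans (hfb 0)
  have ha : (0 : ℝ) ≤ ((n : ℝ) - 1) / 2 := by
    have : (2 : ℝ) ≤ n := by exact_mod_cast hn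
    linarith
  obtain ⟨a, haa⟩ : ∃ a, a = ((n : ℝ) - 1) / 2 := ⟨_, rfl⟩
  -- the integrand
  obtain ⟨G, hG⟩ : ∃ G : ℝ → Sp n → ℝ → ℂ, G = fun (ρ : ℝ) (w : Sp n) (z : ℝ) => (Ioi (0 : ℝ)).indicator
    (fun ρ => ((ρ ^ (((n : ℝ) - 1) / 2) : ℝ) : ℂ) * f (jo (ρ • (w : EE n)) z)) ρ := ⟨_, rfl⟩
  obtain ⟨K, hK⟩ : ∃ K : ℝ → ℝ → Sp n → ℂ, K = fun (x ρ : ℝ) (w : Sp n) =>
    kzc n L chi Lam (v : EE n) (w : EE n) x ρ := ⟨_, rfl⟩
  obtain ⟨H, hH⟩ : ∃ H : ℝ → Sp n → ℂ, H = fun (ρ : ℝ) (w : Sp n) =>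
    hz n L chi Lam (v : EE n) (w : EE n) ρ ζ.1 := ⟨_, rfl⟩
  have hGne : ∀ ρ w z, G ρ w z ≠ 0 → 0 < ρ ∧ f (jo (ρ • (w : EE n)) z) ≠ 0 := by
    intro ρ w z h
    rw [hG] at h
    simp only at h
    have h1 := mem_of_indicator_ne_zero h
    refine ⟨h1, ?_⟩
    rw [indicator_of_mem h1] at h
    exact right_ne_zero_of_mul h
  have hgood : ∀ ρ w z, G ρ w z ≠ 0 → L ^ 2 ≤ Lam * ρ ∧ 0 < ρ ∧ ρ ≤ |R| ∧ z ∈ Icc (-|R|) |R| := by
    intro ρ w z h
    obtain ⟨h1, h2⟩ := hGne ρ w z h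
    have h3 := hsupp _ h2
    rw [jo_smul_hor _ _ h1.le] at h3
    obtain ⟨h4, h5⟩ := f_supp hR h2
    exact ⟨h3, h1, h4, h5⟩
  have hKm : Measurable fun p : ℝ × (ℝ × Sp n) => K p.1 p.2.1 p.2.2 := by
    obtain ⟨F, hF⟩ : ∃ F : (EE n × ℝ) × ℝ → ℂ, F = fun q =>
      kzc n L chi Lam (v : EE n) q.1.1 q.2 q.1.2 := ⟨_, rfl⟩
    have h2 : Measurable F := by rw [hF]; exact kzc_meas hZ chi H27.continuous_chi Lam v
    have h1 : Measurable fun p : ℝ × (ℝ × Sp n) =>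
        ((((p.2.2 : EE n), p.2.1), p.1) : (EE n × ℝ) × ℝ) :=
      (((coe_meas n).comp (measurable_snd.comp measurable_snd)).prodMk
        (measurable_fst.comp measurable_snd)).prodMk measurable_fst
    have h3 := h2.comp h1
    rw [hF] at h3
    rw [hK]
    exact h3
  have hGm : Measurable fun p : ℝ × (ℝ × Sp n) => G p.2.1 p.2.2 p.1 := by
    have h1 : Measurable fun p : ℝ × (ℝ × Sp n) =>
        ((p.2.1 ^ (((n : ℝ) - 1) / 2) : ℝ) : ℂ) * f (jo (p.2.1 • (p.2.2 : EE n)) p.1) := by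
      apply Measurable.mul
      · exact Complex.measurable_ofReal.comp ((measurable_fst.comp measurable_snd).pow_const _)
      · have h2 : Measurable fun p : ℝ × (ℝ × Sp n) =>
            (((p.2.1, p.1), p.2.2) : (ℝ × ℝ) × Sp n) :=
          ((measurable_fst.comp measurable_snd).prodMk measurable_fst).prodMk
            (measurable_snd.comp measurable_snd)
        exact (f_meas hfm).comp h2
    have h3 : (fun p : ℝ × (ℝ × Sp n) => G p.2.1 p.2.2 p.1) =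
        (((fun p : ℝ × (ℝ × Sp n) => p.2.1) ⁻¹' Ioi (0 : ℝ))).indicator
          (fun p => ((p.2.1 ^ (((n : ℝ) - 1) / 2) : ℝ) : ℂ) *
            f (jo (p.2.1 • (p.2.2 : EE n)) p.1)) := by
      ext p
      rw [hG]
      rfl
    rw [h3]
    exact h1.indicator ((measurable_fst.comp measurable_snd) measurableSet_Ioi)
  have hGb : ∀ ρ w z, ‖G ρ w z‖ ≤ |R| ^ (((n : ℝ) - 1) / 2) * B := by
    intro ρ w z
    by_cases h : G ρ w z = 0
    · rw [h, norm_zero]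
      positivity
    · obtain ⟨-, h1, h2, -⟩ := hgood ρ w z h
      rw [hG]
      simp only
      rw [indicator_of_mem (mem_Ioi.2 h1), norm_mul, Complex.norm_real, Real.norm_eq_abs,
        abs_of_nonneg (Real.rpow_nonneg h1.le _)]
      exact mul_le_mul (Real.rpow_le_rpow h1.le h2 ha) (hfb _) (norm_nonneg _) (by positivity)
  obtain ⟨hint, hval⟩ := absA (sg n) (K := K) (G := G) (H := H) ζ
    (A := |R| ^ (((n : ℝ) - 1) / 2) * B) (C := C') (R := |R|) hC' hKm hGm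
    (fun ρ w z h => by
      obtain ⟨-, h1, h2, h3⟩ := hgood ρ w z h
      exact ⟨⟨h1, h2⟩, h3⟩)
    hGb
    (fun x ρ w z h => by
      obtain ⟨h0, h1, h2, -⟩ := hgood ρ w z h
      rw [hK]
      exact hk x ρ v w h0 h1.le h2)
    (fun ρ w z h => by
      obtain ⟨h0, h1, h2, -⟩ := hgood ρ w z h
      rw [hK, hH]
      exact kzc_inv hn hZ H27.continuous_chi H27.hchi hD hC hLam v w ρ ζ.1 h0 h1.le)
  have hFf : Ff (GT n L Lam f v) ζ = ∫ q : ℝ × Sp n, H q.1 q.2 *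
      (∫ z, e (-(z * ζ.2)) * G q.1 q.2 z) ∂((volume.restrict (Ioi 0)).prod (sg n)) := by
    rw [← hval]
    unfold Ff
    congr 1
    ext x
    congr 1
    unfold GT
    refine setIntegral_congr_fun measurableSet_Ioi fun ρ hρ => ?_
    have hρ' : (0 : ℝ) < ρ := hρ
    refine integral_congr_ae (Filter.Eventually.of_forall fun w => ?_)
    simp only
    rw [kzc_eq n L chi H27.hchi Lam hLam (v : EE n) (w : EE n) x.1 ρ hρ'.le, hK, hG]
    simp only
    rw [indicator_of_mem hρ]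
  rw [hFf]
  by_cases hζ : 0 < ζ.1
  · rw [if_pos hζ, integral_prod_symm _ hint, fourier_AL hn hZ hf' hALm v ζ, ← integral_const_mul]
    refine integral_congr_ae (Filter.Eventually.of_forall fun w => ?_)
    simp only
    rw [← integral_const_mul]
    refine setIntegral_congr_fun measurableSet_Ioi fun ρ hρ => ?_
    have hρ' : (0 : ℝ) < ρ := hρ
    have h1 : ∫ z, e (-(z * ζ.2)) * G ρ w z = ((ρ ^ (((n : ℝ) - 1) / 2) : ℝ) : ℂ) *
        ∫ z, e (-(z * ζ.2)) * f (jo (ρ • (w : EE n)) z) := by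
      rw [← integral_const_mul]
      congr 1
      ext z
      rw [hG]
      simp only
      rw [indicator_of_mem hρ]
      ring
    rw [h1, hH]
    simp only
    rw [hz_pos n L chi Lam _ _ ρ ζ.1 hρ'.le hζ.le, Real.mul_rpow hρ'.le hζ.le]
    have h2 : ρ ^ (n - 1) = ρ ^ (((n : ℝ) - 1) / 2) * ρ ^ (((n : ℝ) - 1) / 2) := by
      rw [← Real.rpow_add hρ', ← Real.rpow_natCast]
      congr 1
      rw [Nat.cast_sub (by omega : 1 ≤ n)]
      push_cast
      ring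
    rw [h2]
    push_cast
    ring
  · rw [if_neg hζ]
    push Not at hζ
    have : ∀ q : ℝ × Sp n, H q.1 q.2 * (∫ z, e (-(z * ζ.2)) * G q.1 q.2 z) = 0 := by
      intro q
      rw [hH]
      simp only
      rw [hz_neg n L chi H27.hchi Lam hLam _ _ _ _ hζ, zero_mul]
    simp [this]

end Pool.Agent.H4.BR
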